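import Pool.Agent.H958.RO.Stm

/-!
# RO project, task CovA: many paths near a vertex of large degree (helper828, for helper958)
-/

set_option autoImplicit false

namespace Pool.Agent.H828.RO.CovA

open Finset
open scoped Classical
open Pool.Agent.H958.RO

/-- the vertices of `p` followed by `u` -/
noncomputable def W {n : ℕ} {G : SimpleGraph (Fin n)} {v b : Fin n} (p : G.Walk v b) (u : Fin n) :
    Fin (p.length + 1 + 1) → Fin n :=
  Fin.snoc (fun i : Fin (p.length + 1) => p.getVert i) u

theorem W_last {n : ℕ} {G : SimpleGraph (Fin n)} {v b : Fin n} (p : G.Walk v b) (u : Fin n) :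
    W p u (Fin.last _) = u := by
  unfold W
  exact Fin.snoc_last (α := fun _ => Fin n) _ _

theorem W_cast {n : ℕ} {G : SimpleGraph (Fin n)} {v b : Fin n} (p : G.Walk v b) (u : Fin n)
    (i : Fin (p.length + 1)) : W p u i.castSucc = p.getVert i := by
  unfold W
  exact Fin.snoc_castSucc (α := fun _ => Fin n) _ _ _

theorem main : Pool.Agent.H958.RO.S_COVA := by
  intro n E D r v b hD hp
  obtain ⟨p₀, hp₀⟩ := hp
  obtain ⟨p, hpath, hlen⟩ : ∃ p : (GG E).Walk v b, p.IsPath ∧ p.length ≤ r :=
    ⟨p₀.bypass, p₀.bypass_isPath, (p₀.length_bypass_le_length).trans hp₀⟩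
  refine ⟨p.length, hlen, ?_⟩
  -- the neighbours of `b` outside of the path
  obtain ⟨U, hU⟩ : ∃ U : Finset (Fin n), U = (univ.filter fun u => (GG E).Adj b u) \
      p.support.toFinset := ⟨_, rfl⟩
  have hcard : D - r ≤ U.card := by
    have h1 : p.support.toFinset.card ≤ p.length + 1 := by
      refine (List.toFinset_card_le _).trans ?_
      rw [SimpleGraph.Walk.length_support]
    have h2 : (univ.filter fun u => (GG E).Adj b u).card - p.support.toFinset.card ≤ U.card := by
      rw [hU]
      exact Finset.le_card_sdiff _ _
    have h3 : D < (univ.filter fun u => (GG E).Adj b u).card := hD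
    omega
  refine hcard.trans ?_
  apply Finset.card_le_card_of_injOn (W p)
  · intro u hu
    rw [Finset.mem_coe, hU, Finset.mem_sdiff, Finset.mem_filter] at hu
    obtain ⟨⟨_, hadj⟩, hns⟩ := hu
    rw [List.mem_toFinset] at hns
    rw [Finset.mem_coe, Finset.mem_filter]
    refine ⟨?_, ?_, ?_⟩
    · unfold Inj
      rw [Finset.mem_filter]
      refine ⟨Finset.mem_univ _, ?_⟩
      intro i j
      refine Fin.lastCases ?_ (fun i => ?_) i
      · refine Fin.lastCases ?_ (fun j => ?_) j
        · intro _; rfl
        · intro h
          rw [W_last, W_cast] at h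
          exact absurd (h ▸ p.getVert_mem_support _) hns
      · refine Fin.lastCases ?_ (fun j => ?_) j
        · intro h
          rw [W_last, W_cast] at h
          exact absurd (h ▸ p.getVert_mem_support _) hns
        · intro h
          rw [W_cast, W_cast] at h
          have h1 := hpath.getVert_injOn (Nat.lt_succ_iff.1 i.2) (Nat.lt_succ_iff.1 j.2) h
          rw [Fin.ext h1]
    · have h0 : (0 : Fin (p.length + 1 + 1)) = Fin.castSucc 0 := rfl
      rw [h0, W_cast]
      simp
    · intro i
      refine Fin.lastCases ?_ (fun i => ?_) i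
      · rw [W_cast, Fin.succ_last, W_last]
        simp only [Fin.val_last, SimpleGraph.Walk.getVert_length]
        exact hadj
      · rw [W_cast, ← Fin.castSucc_succ, W_cast]
        exact p.adj_getVert_succ i.2
  · intro u _ u' _ h
    have h1 := congrFun h (Fin.last _)
    rw [W_last, W_last] at h1
    exact h1

end Pool.Agent.H828.RO.CovA
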